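import Pool.Agent.HFC.Stmts

/-!
# Squad HFC, row LEH: the number of modular characters, the central factor
-/

open scoped BigOperators

noncomputable section

namespace Pool.Agent.HFC.H17

open Pool.Agent.Helper51_AWC Pool.Agent.Helper79_WRA Pool.Agent.PP Pool.Agent.PP.KF
open Pool.Agent.PP.K9 Pool.Agent.PP.K9.H97 Pool.Agent.PP.H75 Pool.Agent.PP.T3 Pool.Agent.PP.T2
open Pool.Agent.PFD (Ei)
open Pool.Agent.PSS Pool.Agent.PST Pool.Agent.PST.GU

attribute [local instance] Ideal.Quotient.field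

theorem cen_le_Cu {G : Type} [Group G] {V : Subgroup G} {v : G} (hv : v ∈ V) :
    Subgroup.centralizer (V : Set G) ≤ Cu v := fun g hg =>
  Subgroup.mem_centralizer_singleton_iff.2 (Subgroup.mem_centralizer_iff.1 hg v hv).symm

theorem Cu_lt {G : Type} [Group G] [Finite G] {v : G} (hv : v ∉ Subgroup.center G) :
    Nat.card (Cu v) < Nat.card G := by
  refine lt_of_le_of_ne (Subgroup.card_le_card_group _) (fun h => hv ?_)
  rw [Subgroup.mem_center_iff]
  intro g
  have h1 : g ∈ Cu v := by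
    rw [(Subgroup.card_eq_iff_eq_top _).1 h]
    exact Subgroup.mem_top g
  exact Subgroup.mem_centralizer_singleton_iff.1 h1

/-- the automorphisms of `⊤` which are induced by `E` -/
lemma qr_top {V : Type} [Group V] (E : Subgroup (MulAut V)) :
    Qr (rse E (⊤ : Subgroup V)) E
      (Subgroup.topEquiv : (⊤ : Subgroup V) ≃* V).toMonoidHom := by
  refine ⟨(Subgroup.topEquiv : (⊤ : Subgroup V) ≃* V).surjective, ?_⟩
  intro a ha
  obtain ⟨a', h'⟩ : ∃ a' : MulAut (⊤ : Subgroup V), ∀ u : (⊤ : Subgroup V),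
      ((a' u : (⊤ : Subgroup V)) : V) = a u :=
    ⟨((Subgroup.topEquiv : (⊤ : Subgroup V) ≃* V).trans a).trans
      (Subgroup.topEquiv : (⊤ : Subgroup V) ≃* V).symm, fun _ => rfl⟩
  exact ⟨a', ⟨a, ha, h'⟩, fun u => h' u⟩

/-- an element of `V` which is fixed by the inertial quotient commutes with the inertial group -/
lemma comm_of_fix {F G : Type} [Group G] {V : Subgroup G} {γ : G → F} {c : V}
    (hc : ∀ a ∈ Ei V γ, a c = c) : ∀ t ∈ Tg V γ, t * (c : G) = c * t := by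
  intro t ht
  have htn : t ∈ Subgroup.normalizer (V : Set G) := ht.1
  have h1 : V.normalizerMonoidHom ⟨t, htn⟩ ∈ Ei V γ :=
    Subgroup.mem_map_of_mem _ (Subgroup.mem_subgroupOf.2 ht)
  have h2 := congrArg (fun x : V => (x : G)) (hc _ h1)
  have h3 : t * (c : G) * t⁻¹ = c := h2
  exact mul_inv_eq_iff_eq_mul.1 h3

theorem leh : LehStmt := by
  intro wat loc lsb qrx qrq qln frt ltx hpq rsq K hK hlen ℓ hℓ M _ hM
  have hF : GoodF ℓ (FF M) := H50.fld ℓ Fact.out M hM
  have hA : Adm ℓ K := hK ℓ hℓ.out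
  suffices hmain : ∀ n : ℕ, ∀ (G : Type) [Group G] [Finite G], Nat.card G = n →
      ∀ (e : G → FF M) (V : Subgroup G) (γ : G → FF M), Ld ℓ e V γ →
      (V = ⊥ ∨ Hp K ℓ V (Ei V γ)) →
      ln e = ln (fun t : Subgroup.normalizer (V : Set G) => br V e t) by
    intro G _ _ e V γ h1 h2
    refine hmain _ G rfl e V γ h1 ?_
    rcases h2 with h | ⟨W, hW⟩
    · exact Or.inl h
    · exact Or.inr hW.2.2
  intro n
  induction n using Nat.strong_induction_on with
  | _ n ih =>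
  intro G _ _ hn e V γ hL hc
  rcases hc with hV | hHp
  · exact hlen ℓ M hM G e V γ hL (Or.inl hV)
  obtain ⟨hab, C, V₀, hi, hs, hC, hV0, hd⟩ := hHp
  by_cases hCb : C = ⊥
  · -- no central factor
    rw [hCb, bot_sup_eq] at hs
    subst hs
    refine hlen ℓ M hM G e V γ hL ?_
    rcases hd with hd | ⟨W₀, hd⟩
    · left
      rw [eq_bot_iff]
      intro v hv
      have h1 : (⟨v, hv⟩ : V) ∈ (⊤ : Subgroup V) := Subgroup.mem_top _
      rw [hd, Subgroup.mem_bot] at h1
      rw [Subgroup.mem_bot]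
      exact congrArg (fun x : V => (x : G)) h1
    · right
      exact ⟨_, hA.iso _ V _ (Ei V γ) W₀ _ (qr_top (Ei V γ)) hd⟩
  obtain ⟨⟨c, hcC⟩, hc1⟩ := (Subgroup.ne_bot_iff_exists_ne_one.1 hCb)
  have hcV : c ≠ 1 := fun h => hc1 (Subtype.ext h)
  have hcG : (c : G) ≠ 1 := fun h => hcV (Subtype.ext h)
  have hzV : (c : G) ∈ V := c.2
  have hcomm : ∀ t ∈ Tg V γ, t * (c : G) = c * t :=
    comm_of_fix (fun a ha => hC a ha c hcC)
  have hTC : Tg V γ ≤ Cu (c : G) := fun t ht =>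
    Subgroup.mem_centralizer_singleton_iff.2 (hcomm t ht)
  have hzf : (c : G) ∈ TV.Zf V γ :=
    ⟨hzV, Subgroup.mem_centralizer_iff.2 fun t ht => hcomm t ht⟩
  by_cases hcen : (c : G) ∈ Subgroup.center G
  · -- a central element: the quotient
    obtain ⟨Z, hZ⟩ : ∃ Z : Subgroup G, Z = Subgroup.zpowers (c : G) := ⟨_, rfl⟩
    have hZV : Z ≤ V := by
      rw [hZ, Subgroup.zpowers_le]
      exact hzV
    have hZc : Z ≤ Subgroup.center G := by
      rw [hZ, Subgroup.zpowers_le]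
      exact hcen
    have hZn : Z.Normal := by
      refine ⟨fun x hx g => ?_⟩
      have h1 := Subgroup.mem_center_iff.1 (hZc hx) g
      rw [h1, mul_assoc, mul_inv_cancel, mul_one]
      exact hx
    have hne : Z ≠ ⊥ := by
      rw [hZ]
      exact fun h => hcG (Subgroup.zpowers_eq_bot.1 h)
    have hlt : Nat.card (G ⧸ Z) < n := by
      rw [← hn, Subgroup.card_eq_card_quotient_mul_card_subgroup Z]
      have h1 : 1 < Nat.card Z := by
        rw [Subgroup.one_lt_card_iff_ne_bot]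
        exact hne
      have h2 : 0 < Nat.card (G ⧸ Z) := Nat.card_pos
      nlinarith
    have hker : (QuotientGroup.mk' Z).ker = Z := QuotientGroup.ker_mk' Z
    apply qln ℓ (FF M) hF G (G ⧸ Z) (QuotientGroup.mk' Z) (QuotientGroup.mk'_surjective Z) V
      hL.tp.pg (by rw [hker]; exact hZV) e hL.blk.1
    intro f hf hfe
    obtain ⟨γ', hL', π, hπ, hq⟩ := qrq ℓ M hM G e V γ hL Z hZV hZn (G ⧸ Z) (QuotientGroup.mk' Z)
      (QuotientGroup.mk'_surjective Z) hker f hf hfe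
    have hkC : π.ker ≤ C := by
      rw [hπ]
      intro v hv
      rw [Subgroup.mem_subgroupOf, hZ, Subgroup.mem_zpowers_iff] at hv
      obtain ⟨k, hk⟩ := hv
      have h1 : v = c ^ k := Subtype.ext (by rw [SubgroupClass.coe_zpow]; exact hk.symm)
      rw [h1]
      exact C.zpow_mem hcC k
    exact ih _ hlt (G ⧸ Z) rfl f _ γ' hL'
      (Or.inr (hpq rsq K ℓ hA V _ (Ei V γ) _ π hq hab C V₀ hi hs hC hV0 hd hkC))
  · -- the local block
    obtain ⟨⟨b, hb⟩, -⟩ := loc ℓ (FF M) hF G e V γ hL c hzV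
    obtain ⟨m1, -⟩ := lsb ℓ M hM G e V γ hL c hzV b hb
    have w1 := wat ℓ M hM G e V γ hL c hzf b hb
    obtain ⟨π, -, hq⟩ := qrx ℓ (FF M) G e V γ hL (Cu (c : G)) (cen_le_Cu hzV)
    have hkC : π.toMonoidHom.ker ≤ C := by
      rw [(MonoidHom.ker_eq_bot_iff _).2 π.injective]
      exact bot_le
    have h3 := hpq rsq K ℓ hA V _ (Ei V γ) _ π.toMonoidHom hq hab C V₀ hi hs hC hV0 hd hkC
    have hlt : Nat.card (Cu (c : G)) < n := by
      rw [← hn]
      exact Cu_lt hcen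
    rw [← w1, ih _ hlt (Cu (c : G)) rfl _ _ _ m1 (Or.inr h3),
      frt ℓ M hM (Cu (c : G)) _ _ _ m1, frt ℓ M hM G e V γ hL,
      (ltx ℓ (FF M) G e V γ hL (Cu (c : G)) (cen_le_Cu hzV)).1, inf_eq_left.2 hTC]

end Pool.Agent.HFC.H17
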